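import Pool.Agent.Borsuk22.Matching

/-!
# Borsuk partitions of sets with few close triples

A bounded set `K` in `ℝ^d` in which among any three points two realise the diameter (and, more
generally, a set whose triples of points at mutual distance less than the diameter have small total
weight) is finite, has at most `2 d + 2` points, and is a union of `d + 1` sets of smaller
diameter.
-/

namespace Pool.Agent.Results.MP_701da7_co.FewCloseTriples

open Borsuk22 Finset

/-- `K` is the disjoint union of `m` sets of smaller diameter. -/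
def SplitsInto {d : ℕ} (K : Set (EuclideanSpace ℝ (Fin d))) (m : ℕ) : Prop :=
  ∃ P : Fin m → Set (EuclideanSpace ℝ (Fin d)), (⋃ i, P i) = K ∧
    (∀ i j, i ≠ j → Disjoint (P i) (P j)) ∧ ∀ i, Metric.diam (P i) < Metric.diam K

/-- The sum over all ordered triples `(x, y, z)` of distinct points of the finite set `F` of the
product of the three numbers `1 - (|x - y| / diam K) ^ 2`. -/
noncomputable def closeTriples {d : ℕ} (K : Set (EuclideanSpace ℝ (Fin d)))
    (F : Finset (EuclideanSpace ℝ (Fin d))) : ℝ :=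
  ∑ x ∈ F, ∑ y ∈ F, ∑ z ∈ F, open scoped Classical in
    if x ≠ y ∧ y ≠ z ∧ z ≠ x then
      (1 - (dist x y / Metric.diam K) ^ 2) * (1 - (dist y z / Metric.diam K) ^ 2) *
        (1 - (dist z x / Metric.diam K) ^ 2)
    else 0

lemma card_le {d : ℕ} {V : Type*} [Fintype V] [DecidableEq V]
    (q : V → EuclideanSpace ℝ (Fin d)) (hq : ∀ i j, dist (q i) (q j) ≤ 1) :
    (Fintype.card V : ℝ) ≤ 2 * (d + 1) + trip q := by
  have h := odd_add_card_le q hq
    (SimpleGraph.mk (fun i j => i ≠ j ∧ dist (q i) (q j) < 1)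
      ⟨fun i j h => ⟨h.1.symm, by rw [dist_comm]; exact h.2⟩⟩ ⟨fun i h => h.1 rfl⟩)
    (fun i j hij hn => by
      have : ¬ dist (q i) (q j) < 1 := fun h => hn ⟨hij, h⟩
      exact le_antisymm (hq i j) (not_lt.mp this))
  have h0 : (0 : ℝ) ≤ ((SimpleGraph.mk (fun i j => i ≠ j ∧ dist (q i) (q j) < 1)
      ⟨fun i j h => ⟨h.1.symm, by rw [dist_comm]; exact h.2⟩⟩
      ⟨fun i h => h.1 rfl⟩ : SimpleGraph V).oddComponents.ncard : ℝ) := Nat.cast_nonneg _
  linarith

lemma trip_eq {d : ℕ} (K : Set (EuclideanSpace ℝ (Fin d)))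
    (F : Finset (EuclideanSpace ℝ (Fin d))) [DecidableEq F] (hδ : 0 < Metric.diam K) :
    trip (fun v : F => (Metric.diam K)⁻¹ • (v : EuclideanSpace ℝ (Fin d))) =
      closeTriples K F := by
  classical
  have hd : ∀ v w : F, dist ((Metric.diam K)⁻¹ • (v : EuclideanSpace ℝ (Fin d)))
      ((Metric.diam K)⁻¹ • (w : EuclideanSpace ℝ (Fin d))) =
      dist (v : EuclideanSpace ℝ (Fin d)) w / Metric.diam K := by
    intro v w
    rw [dist_smul₀, Real.norm_eq_abs, abs_of_pos (inv_pos.mpr hδ), div_eq_inv_mul]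
  unfold trip closeTriples
  rw [← Finset.sum_coe_sort F]
  refine Finset.sum_congr rfl fun x _ => ?_
  rw [← Finset.sum_coe_sort F]
  refine Finset.sum_congr rfl fun y _ => ?_
  rw [← Finset.sum_coe_sort F]
  refine Finset.sum_congr rfl fun z _ => ?_
  unfold amat
  simp only [hd]
  by_cases h1 : x = y
  · simp [h1]
  by_cases h2 : y = z
  · simp [h2]
  by_cases h3 : z = x
  · simp [h3]
  have h1' : (x : EuclideanSpace ℝ (Fin d)) ≠ y := fun h => h1 (Subtype.ext h)
  have h2' : (y : EuclideanSpace ℝ (Fin d)) ≠ z := fun h => h2 (Subtype.ext h)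
  have h3' : (z : EuclideanSpace ℝ (Fin d)) ≠ x := fun h => h3 (Subtype.ext h)
  rw [if_neg h1, if_neg h2, if_neg h3, if_pos ⟨h1', h2', h3'⟩]

/-- Let `K` be a bounded subset of `ℝ^d` with at least two points and let `t` be a real number such
that `closeTriples K F ≤ t` for every finite subset `F` of `K`.  Then `K` is finite, it has at most
`2 d + 2 + t` points, and it is the disjoint union of `d + 1 + ⌊t / 2⌋` sets of smaller diameter. -/
theorem result (d : ℕ) (K : Set (EuclideanSpace ℝ (Fin d))) (hb : Bornology.IsBounded K)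
    (hK : K.Nontrivial) (t : ℝ)
    (ht : ∀ F : Finset (EuclideanSpace ℝ (Fin d)), (F : Set (EuclideanSpace ℝ (Fin d))) ⊆ K →
      closeTriples K F ≤ t) :
    K.Finite ∧ (K.ncard : ℝ) ≤ 2 * d + 2 + t ∧ SplitsInto K (d + 1 + ⌊t / 2⌋₊) := by
  classical
  have hδ : 0 < Metric.diam K := Metric.diam_pos hK hb
  set δ := Metric.diam K with hδdef
  have hq : ∀ F : Finset (EuclideanSpace ℝ (Fin d)),
      (F : Set (EuclideanSpace ℝ (Fin d))) ⊆ K → ∀ i j : F,
      dist (δ⁻¹ • (i : EuclideanSpace ℝ (Fin d))) (δ⁻¹ • (j : EuclideanSpace ℝ (Fin d))) ≤ 1 := by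
    intro F hF i j
    rw [dist_smul₀, Real.norm_eq_abs, abs_of_pos (inv_pos.mpr hδ), inv_mul_le_iff₀ hδ, mul_one]
    exact Metric.dist_le_diam_of_mem hb (hF i.2) (hF j.2)
  have hcard : ∀ F : Finset (EuclideanSpace ℝ (Fin d)),
      (F : Set (EuclideanSpace ℝ (Fin d))) ⊆ K → (F.card : ℝ) ≤ 2 * d + 2 + t := by
    intro F hF
    have h := card_le (fun v : F => δ⁻¹ • (v : EuclideanSpace ℝ (Fin d))) (hq F hF)
    rw [trip_eq K F hδ, Fintype.card_coe] at h
    have := ht F hF
    linarith
  have hfin : K.Finite := by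
    by_contra hinf
    obtain ⟨F, hF, hFc⟩ := Set.Infinite.exists_subset_card_eq hinf (⌊2 * (d : ℝ) + 2 + t⌋₊ + 1)
    have h1 := hcard F hF
    rw [hFc] at h1
    push_cast at h1
    have h2 := Nat.lt_floor_add_one (2 * (d : ℝ) + 2 + t)
    linarith
  refine ⟨hfin, ?_, ?_⟩
  · have h := hcard hfin.toFinset (by simp)
    rwa [← Set.ncard_eq_toFinset_card K hfin] at h
  · set F := hfin.toFinset with hFdef
    have hFK : (F : Set (EuclideanSpace ℝ (Fin d))) ⊆ K := by simp [hFdef]
    have hmem : ∀ x, x ∈ F ↔ x ∈ K := fun x => by simp [hFdef]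
    obtain ⟨c, hc⟩ := exists_coloring (fun v : F => δ⁻¹ • (v : EuclideanSpace ℝ (Fin d)))
      (hq F hFK) t (by rw [trip_eq K F hδ]; exact ht F hFK)
    refine ⟨fun i => {x | ∃ h : x ∈ F, c ⟨x, h⟩ = i}, ?_, ?_, ?_⟩
    · ext x
      simp only [Set.mem_iUnion, Set.mem_ofPred_eq]
      constructor
      · rintro ⟨i, h, -⟩
        exact (hmem x).mp h
      · intro h
        exact ⟨c ⟨x, (hmem x).mpr h⟩, (hmem x).mpr h, rfl⟩
    · intro i j hij
      rw [Set.disjoint_left]
      rintro x ⟨h, hi⟩ ⟨h', hj⟩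
      exact hij (hi.symm.trans hj)
    · intro i
      set Pi : Set (EuclideanSpace ℝ (Fin d)) := {x | ∃ h : x ∈ F, c ⟨x, h⟩ = i} with hPi
      have hPfin : Pi.Finite := hfin.subset fun x hx => (hmem x).mp hx.1
      change Metric.diam Pi < δ
      rcases Set.eq_empty_or_nonempty Pi with hemp | hne
      · rw [hemp, Metric.diam_empty]
        exact hδ
      · have hne' : (hPfin.toFinset ×ˢ hPfin.toFinset).Nonempty := by
          obtain ⟨x, hx⟩ := hne
          exact ⟨(x, x), by simp [hx]⟩
        obtain ⟨⟨a, b⟩, hab, hmax⟩ := Finset.exists_max_image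
          (hPfin.toFinset ×ˢ hPfin.toFinset) (fun p => dist p.1 p.2) hne'
        have ha : a ∈ Pi := by
          have := (Finset.mem_product.mp hab).1
          simpa using this
        have hb' : b ∈ Pi := by
          have := (Finset.mem_product.mp hab).2
          simpa using this
        have hlt : dist a b < δ := by
          obtain ⟨haF, hac⟩ := ha
          obtain ⟨hbF, hbc⟩ := hb'
          by_cases h : a = b
          · rw [h, dist_self]
            exact hδ
          · have h1 := hc ⟨a, haF⟩ ⟨b, hbF⟩ (fun h' => h (congrArg Subtype.val h'))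
              (hac.trans hbc.symm)
            rw [dist_smul₀, Real.norm_eq_abs, abs_of_pos (inv_pos.mpr hδ),
              inv_mul_lt_iff₀ hδ, mul_one] at h1
            exact h1
        refine lt_of_le_of_lt (Metric.diam_le_of_forall_dist_le dist_nonneg ?_) hlt
        intro x hx y hy
        exact hmax (x, y) (Finset.mem_product.mpr
          ⟨hPfin.mem_toFinset.mpr hx, hPfin.mem_toFinset.mpr hy⟩)

end Pool.Agent.Results.MP_701da7_co.FewCloseTriples
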