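import Mathlib
import Pool.Agent.BQ.GDefs
import Pool.Agent.BQ.Z_All

/-!
# Q1 is false: general diameter configurations with no Borsuk partition

For every large `d` there is a compact set `K` in `ℝ ^ d` with more than one point such that
`(K, D(K))` is general and `K` is not a disjoint union of `d + 1` sets of smaller diameter, not even
of `d ^ 1.04` such sets.

The definitions `diameters` (the set `D(K)`), `IsGeneral` (the convention of the problem) and
`SplitsInto` (a disjoint union of `m` sets of smaller diameter, empty sets allowed) are in
`Pool/Agent/BQ/GDefs.lean`.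

Outline of the proof (the full text is in `Pool/Agent/BQ/PAPER.md`).
* `K` is the image of `V × S³` (`V` a finite set of labels, `S³` the unit quaternions) under
  `(s, g) ↦ (A_s g, c A_s A_s*)`, where `A_s` is a vector of quaternions whose inner products are the
  integer quaternions `κ(t - s)`. The distance is maximal exactly when `|κ(t - s)|² = n` and
  `g' = - conj κ(t - s) g / √n`; so the diameters are the edges of a graph on `V × S³` given by
  integer quaternions of norm `n`.
* General: `n = p n₁` with `p` a prime larger than a power of `n₁`. The `p`-adic level of a path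
  (a reduced product of integer quaternions) changes by one along every diameter, and a point has
  at most `150` diameters to a smaller level, all with different labels. The vectors `A_s A_s*` are
  nearly orthogonal, so the equations can be solved by a contraction, level by level, with
  constants which do not depend on the level.
* No partition: the closure of a part is a closed independent set of the graph. For a random set of
  labels the averaging operator of the graph has a small norm on functions orthogonal to the
  constants in every fibre (matrix Chernoff bound and a spectral gap for low frequencies, a trace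
  bound for high frequencies), and large sets of labels span many edges (containers, Fourier
  analysis), so a closed independent set has measure less than `1 / m`.
-/

namespace Pool.Agent.Results.MP_701da7_co.GeneralBorsukFails

open Pool.Agent.BQ

theorem result : ∃ d₁ : ℕ, 1 ≤ d₁ ∧ ∀ d : ℕ, d₁ ≤ d →
    ∃ K : Set (EuclideanSpace ℝ (Fin d)), IsCompact K ∧ K.Nontrivial ∧
      IsGeneral K (diameters K) ∧ ¬ SplitsInto K (d + 1) ∧
      ∀ m : ℕ, (m : ℝ) ≤ (d : ℝ) ^ (1.04 : ℝ) → ¬ SplitsInto K m := by
  obtain ⟨d1, hd1, h⟩ := BQA.Z_all
  have hlim : Filter.Tendsto (fun d : ℕ => (d : ℝ) ^ (0.04 : ℝ)) Filter.atTop Filter.atTop :=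
    (tendsto_rpow_atTop (by norm_num)).comp tendsto_natCast_atTop_atTop
  obtain ⟨d2, hd2⟩ := Filter.eventually_atTop.mp (hlim.eventually_ge_atTop 2)
  refine ⟨max d1 d2, le_trans hd1 (le_max_left _ _), fun d hd => ?_⟩
  have hdd1 : d1 ≤ d := le_trans (le_max_left _ _) hd
  have hdd2 : d2 ≤ d := le_trans (le_max_right _ _) hd
  obtain ⟨K, h1, h2, h3, h4⟩ := h d hdd1
  refine ⟨K, h1, h2, h3, h4 (d + 1) ?_, h4⟩
  have hd0 : (1 : ℝ) ≤ (d : ℝ) := by exact_mod_cast le_trans hd1 hdd1
  have h5 : (2 : ℝ) ≤ (d : ℝ) ^ (0.04 : ℝ) := hd2 d hdd2
  have h6 : (d : ℝ) ^ (1.04 : ℝ) = d * (d : ℝ) ^ (0.04 : ℝ) := by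
    have h7 : (1.04 : ℝ) = 1 + 0.04 := by norm_num
    rw [h7, Real.rpow_add (by linarith), Real.rpow_one]
  rw [h6]
  push_cast
  nlinarith

end Pool.Agent.Results.MP_701da7_co.GeneralBorsukFails
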