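import Pool.Agent.Lib_helper24.BorsukGen.General

/-!
# Borsuk partitions of sets with tame diameters

Let `K` be a bounded subset of `ℝ ^ d` with at least two points.  If every nonempty compact subset
`K₀` of the closure of `K` contains a *tame* point (for instance a point near which all points of
`K₀` are on at most one diameter with both ends in `K₀`, or a point where these diameters are
linearly independent and near which they are separated), then `K` is a disjoint union of `d + 1`
sets of smaller diameter.  If the diameters of the closure of `K` are uniformly linearly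
independent, then moreover `(K, D(K))` is general.
-/

namespace Pool.Agent.Results.MP_701da7_co.TameDiameters

open Set Metric Pool.Agent.Lib_helper24.BorsukGen
open scoped RealInnerProductSpace

variable {d : ℕ}

/-- The set `D(K)` of all diameters of `K`, as unordered pairs. -/
def diameters (K : Set (EuclideanSpace ℝ (Fin d))) : Set (Sym2 (EuclideanSpace ℝ (Fin d))) :=
  {e | ∃ x ∈ K, ∃ y ∈ K, dist x y = diam K ∧ e = s(x, y)}

/-- `(K, A)` is general: there is `ε > 0` such that every family `δ t`, `t ∈ [0, 1)`, of functions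
on `A` which vanishes at `t = 0`, satisfies `sup |δ t| < ε` and is continuous in `t` in the sup
norm, is realised by a family of maps `φ t : K → ℝ ^ d` with `φ 0 = id`, continuous in `t` in the
sup norm. -/
def IsGeneral (K : Set (EuclideanSpace ℝ (Fin d))) (A : Set (Sym2 (EuclideanSpace ℝ (Fin d)))) :
    Prop :=
  ∃ ε > 0, ∀ δ : ℝ → Sym2 (EuclideanSpace ℝ (Fin d)) → ℝ,
    (∀ e ∈ A, δ 0 e = 0) →
    (∀ t ∈ Ico (0 : ℝ) 1, ∃ c < ε, ∀ e ∈ A, |δ t e| ≤ c) →
    (∀ t ∈ Ico (0 : ℝ) 1, ∀ η > 0, ∃ r > 0, ∀ t' ∈ Ico (0 : ℝ) 1, |t' - t| < r →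
      ∀ e ∈ A, |δ t' e - δ t e| ≤ η) →
    ∃ φ : ℝ → EuclideanSpace ℝ (Fin d) → EuclideanSpace ℝ (Fin d),
      (∀ x ∈ K, φ 0 x = x) ∧
      (∀ t ∈ Ico (0 : ℝ) 1, ∀ η > 0, ∃ r > 0, ∀ t' ∈ Ico (0 : ℝ) 1, |t' - t| < r →
        ∀ x ∈ K, dist (φ t' x) (φ t x) ≤ η) ∧
      ∀ t ∈ Ico (0 : ℝ) 1, ∀ x ∈ K, ∀ y ∈ K, s(x, y) ∈ A →
        dist (φ t x) (φ t y) = dist x y + δ t s(x, y)

/-- `K` is the disjoint union of `m` sets of smaller diameter. -/
def SplitsInto (K : Set (EuclideanSpace ℝ (Fin d))) (m : ℕ) : Prop :=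
  ∃ P : Fin m → Set (EuclideanSpace ℝ (Fin d)), (⋃ i, P i) = K ∧
    (∀ i j, i ≠ j → Disjoint (P i) (P j)) ∧ ∀ i, diam (P i) < diam K

/-- For `K₀ ⊆ K` and a point `p`, the *partners* of `p` in `K₀` are the points of `K₀` at distance
`diam K` from `p`. -/
def partners (K K₀ : Set (EuclideanSpace ℝ (Fin d))) (p : EuclideanSpace ℝ (Fin d)) :
    Set (EuclideanSpace ℝ (Fin d)) :=
  {z | z ∈ K₀ ∧ dist p z = diam K}

/-- `p` is a *tame* point of the set `K₀`: either
(A) for some `δ > 0`, every point of `K₀` at distance less than `δ` from `p` has at most one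
partner in `K₀`; or
(B) for some `δ > 0`, any two partners in `K₀` of a point of `K₀` at distance less than `δ` from
`p` are at least `δ` apart, and no point of `K₀` has two partners in `K₀` at distance less than `δ`
from `p`; and moreover either the vectors `p - z`, `z` a partner of `p` in `K₀`, are linearly
independent, or for some `m` the point `p` has at most `d - m` partners in `K₀` and a neighbourhood
of `p` in `K₀` embeds in `ℝ ^ m`. -/
def IsTame (K K₀ : Set (EuclideanSpace ℝ (Fin d))) (p : EuclideanSpace ℝ (Fin d)) : Prop :=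
  (∃ δ > 0, ∀ q ∈ K₀, dist q p < δ → (partners K K₀ q).Subsingleton) ∨
  (∃ δ > 0, (∀ q ∈ K₀, dist q p < δ → ∀ z ∈ partners K K₀ q, ∀ z' ∈ partners K K₀ q, z ≠ z' →
      δ ≤ dist z z') ∧
    ∀ z ∈ K₀, ∀ q ∈ partners K K₀ z, ∀ q' ∈ partners K K₀ z, dist q p < δ → dist q' p < δ →
      q = q') ∧
  ((LinearIndependent ℝ fun z : partners K K₀ p => p - (z : EuclideanSpace ℝ (Fin d))) ∨
    ∃ m : ℕ, (partners K K₀ p).encard + m ≤ d ∧ ∃ ρ > 0,
      ∃ f : EuclideanSpace ℝ (Fin d) → Fin m → ℝ, ContinuousOn f (K₀ ∩ closedBall p ρ) ∧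
        InjOn f (K₀ ∩ closedBall p ρ))

/-- The diameters of `K` are independent with constant `M`: for every diameter `{x, y}` of `K`
there is a vector `v` of length at most `M` with `⟪x - y, v⟫ = 1` which is orthogonal to `x - z` for
all other diameters `{x, z}` of `K` at `x`. -/
def UniformlyIndependent (K : Set (EuclideanSpace ℝ (Fin d))) (M : ℝ) : Prop :=
  ∀ x ∈ K, ∀ y ∈ partners K K x, ∃ v : EuclideanSpace ℝ (Fin d), ‖v‖ ≤ M ∧ ⟪x - y, v⟫ = 1 ∧
    ∀ z ∈ partners K K x, z ≠ y → ⟪x - z, v⟫ = 0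

theorem splitsInto_of_cov {K : Set (EuclideanSpace ℝ (Fin d))} (hK : Bornology.IsBounded K)
    (h : Cov d (diam K) (closure K)) : SplitsInto K (d + 1) := by
  obtain ⟨C, -, h2, h3, h4⟩ := h
  refine exists_partition hK (fun i => C i ∩ K) (fun i => inter_subset_right) (fun i => ?_) ?_
  · exact lt_of_le_of_lt (diam_mono inter_subset_left (hK.closure.subset (h2 i))) (h3 i)
  · intro x hx
    obtain ⟨i, hi⟩ := mem_iUnion.1 (h4 (subset_closure hx))
    exact mem_iUnion.2 ⟨i, hi, hx⟩

theorem isGeneral_of_indep {K : Set (EuclideanSpace ℝ (Fin d))} (hD : 0 < diam K) {M : ℝ}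
    (h : IndepDiam K (diam K) M) : IsGeneral K (diameters K) := by
  classical
  obtain ⟨ε, hε, C, hC, -, W, hW0, hWc, hWs⟩ := h.solve hD
  refine ⟨ε, hε, fun δ hδ0 hδ1 hδ2 => ?_⟩
  let D : ℝ → EuclideanSpace ℝ (Fin d) → EuclideanSpace ℝ (Fin d) → ℝ := fun t x y =>
    if s(x, y) ∈ diameters K then δ t s(x, y) else 0
  have hDb : ∀ t ∈ Ico (0 : ℝ) 1, ∀ x y, |D t x y| ≤ ε := by
    intro t ht x y
    obtain ⟨c, hc, hce⟩ := hδ1 t ht
    by_cases hxy : s(x, y) ∈ diameters K
    · simp only [D, hxy, if_true]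
      exact (hce _ hxy).trans hc.le
    · simp only [D, hxy, if_false, abs_zero]
      exact hε.le
  have hDs : ∀ t x y, D t x y = D t y x := by
    intro t x y
    simp only [D]
    rw [Sym2.eq_swap]
  have hD0 : D 0 = 0 := by
    funext x y
    by_cases hxy : s(x, y) ∈ diameters K
    · simp only [D, hxy, if_true]
      exact hδ0 _ hxy
    · simp only [D, hxy, if_false]
      rfl
  refine ⟨fun t x => x + W (D t) x, ?_, ?_, ?_⟩
  · intro x hx
    simp only
    rw [hD0, hW0 x hx, add_zero]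
  · intro t ht η hη
    obtain ⟨r, hr, hrt⟩ := hδ2 t ht (η / C) (by positivity)
    refine ⟨r, hr, fun t' ht' htt x hx => ?_⟩
    have h1 : ∀ x y, |D t' x y - D t x y| ≤ η / C := by
      intro x y
      by_cases hxy : s(x, y) ∈ diameters K
      · simp only [D, hxy, if_true]
        exact hrt t' ht' htt _ hxy
      · simp only [D, hxy, if_false, sub_self, abs_zero]
        positivity
    have h2 := hWc (D t') (D t) (hDb t' ht') (hDb t ht) (η / C) (by positivity) h1 x hx
    have h3 : C * (η / C) = η := by field_simp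
    rw [dist_add_left, dist_eq_norm, ← h3]
    exact h2
  · intro t ht x hx y hy hxy
    have hxy' : dist x y = diam K := by
      obtain ⟨a, ha, b, hb, hab, he⟩ := hxy
      rw [Sym2.eq_iff] at he
      rcases he with ⟨rfl, rfl⟩ | ⟨rfl, rfl⟩
      · exact hab
      · rw [dist_comm]; exact hab
    have h1 := hWs (D t) (hDb t ht) (hDs t) x hx y hy hxy'
    rw [hxy', h1]
    simp only [D, hxy, if_true]

/-- Let `K` be a bounded subset of `ℝ ^ d` with at least two points.  (1) If every nonempty compact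
subset `K₀` of the closure of `K` contains a tame point, then `K` is a disjoint union of `d + 1`
sets of smaller diameter.  (2) If the diameters of the closure of `K` are uniformly independent,
then `(K, D(K))` is general and `K` is a disjoint union of `d + 1` sets of smaller diameter. -/
theorem result (d : ℕ) (K : Set (EuclideanSpace ℝ (Fin d))) (hK : Bornology.IsBounded K)
    (hne : K.Nontrivial) :
    ((∀ K₀ ⊆ closure K, IsCompact K₀ → K₀.Nonempty → ∃ p ∈ K₀, IsTame K K₀ p) →
      SplitsInto K (d + 1)) ∧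
    ∀ M : ℝ, UniformlyIndependent (closure K) M →
      IsGeneral K (diameters K) ∧ SplitsInto K (d + 1) := by
  have hD : 0 < diam K := diam_pos hne hK
  have hKc : IsCompact (closure K) := hK.isCompact_closure
  have hdiam : ∀ x ∈ closure K, ∀ y ∈ closure K, dist x y ≤ diam K := fun x hx y hy => by
    rw [← diam_closure]
    exact dist_le_diam_of_mem hK.closure hx hy
  have hn : Module.finrank ℝ (EuclideanSpace ℝ (Fin d)) = d := by simp
  constructor
  · intro h
    refine splitsInto_of_cov hK (cov_of_tame hn hKc hD hdiam fun K₀ h1 h2 h3 => ?_)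
    obtain ⟨p, hp, ht⟩ := h K₀ h1 h2 h3
    refine ⟨p, hp, ?_⟩
    rcases ht with ⟨δ, hδ, h4⟩ | ⟨⟨δ, hδ, h4, h5⟩, h6⟩
    · exact Or.inl ⟨δ, hδ, fun q hq hqp z hz z' hz' e1 e2 => h4 q hq hqp ⟨hz, e1⟩ ⟨hz', e2⟩⟩
    · refine Or.inr ⟨⟨δ, hδ, ?_, ?_⟩, h6⟩
      · intro q hq hqp z hz z' hz' e1 e2 e3
        exact h4 q hq hqp z ⟨hz, e1⟩ z' ⟨hz', e2⟩ e3
      · intro z hz q hq q' hq' e1 e2 e3 e4
        exact h5 z hz q ⟨hq, by rw [dist_comm]; exact e3⟩ q' ⟨hq', by rw [dist_comm]; exact e4⟩
          e1 e2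
  · intro M h
    have hI : IndepDiam (closure K) (diam K) M := by
      intro x hx y hy hxy
      rw [← diam_closure] at hxy
      obtain ⟨v, h1, h2, h3⟩ := h x hx y ⟨hy, hxy⟩
      exact ⟨v, h1, h2, fun z hz hxz hzy => h3 z ⟨hz, by rw [diam_closure]; exact hxz⟩ hzy⟩
    refine ⟨isGeneral_of_indep hD (hI.mono subset_closure), ?_⟩
    exact splitsInto_of_cov hK (cov_of_tame hn hKc hD hdiam fun K₀ h1 h2 ⟨p, hp⟩ =>
      ⟨p, hp, (hI.mono h1).tame hp⟩)

end Pool.Agent.Results.MP_701da7_co.TameDiameters
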